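import Mathlib
import Pool.Agent.H13.IC.Main

/-!
# Hall's conjecture for fifth powers: `y² - x³ = u m⁵`

Let `T` be a finite set of primes. For all pairs of integers `x`, `y` whose common prime factors lie
in `T` and for which `y² - x³ ≠ 0` is a fifth power times a product `u` of primes of `T` (of any
size), Hall's inequality `|y² - x³| > c |x| ^ (1/2 - ε)` holds, and even

  `|y² - x³| > c |x| ^ (5/2 - ε)`.

The exponent `5/2` is the best possible: with Klein's forms `f`, `H`, `T` of the degrees 12, 20, 30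
and consecutive Fibonacci numbers, `T² + H³ = 1728 f⁵` gives infinitely many pairs with
`y² - x³ = 1728 m⁵` and `|y² - x³| ≤ C |x| ^ (5/2)`.

This is the last spherical case; the cases `y² - x³ = u mⁿ` with `n = 2, 3, 4` are in the library
(`MP_e734ed_nt.PowerTimesUnit`), from which the last reductions are taken.

Proof. We may assume `y² - x³ = D M⁵` with `D` bounded and `x`, `M` coprime. Choose an integer `w`
with `x = w² + M⁵ r`, `y = w³ + M⁵ s`. There is an explicit binary form of degree 12, whose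
coefficients are polynomials in `w, M, r, s` with integral coefficients,

  `M X¹² + 12 w X¹¹ Y - 66 M⁴ r X¹⁰ Y² + (440 M³ s - 660 w M³ r) X⁹ Y³ + …`,

which is the form of the icosahedron `f` in other real coordinates. Reduction of the lattice shows
that it is equivalent to one of finitely many integral forms, as `f` is nonsingular. Ridout's
theorem for these forms gives the result.
-/

set_option autoImplicit false

namespace Pool.Agent.Results.MP_e734ed_nt.FifthPowers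

open Finset Pool.Agent.NH26.HC Pool.Agent.H13.IC

theorem max_pos_of_ne {x y : ℤ} (h : y ^ 2 ≠ x ^ 3) : 1 ≤ max (|(x : ℝ)| ^ 3) ((y : ℝ) ^ 2) := by
  by_cases hx : x = 0
  · have hy : y ≠ 0 := by
      rintro rfl
      apply h
      rw [hx]; ring
    have h1 : (1 : ℝ) ≤ |(y : ℝ)| := by exact_mod_cast Int.one_le_abs hy
    refine le_max_of_le_right ?_
    rw [← sq_abs]
    nlinarith
  · have h1 : (1 : ℝ) ≤ |(x : ℝ)| := by exact_mod_cast Int.one_le_abs hx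
    exact le_max_of_le_left (one_le_pow₀ h1)

/-- the theorem for exponents at most `5 / 6` -/
theorem aux (T : Finset ℕ) (hT : ∀ p ∈ T, p.Prime) (ε : ℝ)
    (hε : 0 < ε) (hε1 : ε ≤ 5 / 6) :
    ∃ c : ℝ, 0 < c ∧ ∀ x y u m : ℤ, y ^ 2 ≠ x ^ 3 → TU T u → y ^ 2 - x ^ 3 = u * m ^ 5 →
      (∀ p : ℕ, p.Prime → (p : ℤ) ∣ x → (p : ℤ) ∣ y → p ∈ T) →
      c * (max (|(x : ℝ)| ^ 3) ((y : ℝ) ^ 2)) ^ (5 / 6 - ε) ≤ |((y ^ 2 - x ^ 3 : ℤ) : ℝ)| ∧
      (IsCoprime x y →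
        c * (max (|(x : ℝ)| ^ 3) ((y : ℝ) ^ 2)) ^ (5 / 6 - ε) ≤ |(m : ℝ)| ^ 5) := by
  set e' : ℝ := 6 * ε / 5 with he'
  have he'0 : 0 < e' := by positivity
  have he'1 : e' ≤ 1 := by
    rw [he', div_le_one (by norm_num)]
    linarith
  obtain ⟨κ, hκ, hb⟩ := main5 T hT e' he'0 he'1
  have hexp : ((1 - e') / 6) * (5 : ℕ) = 5 / 6 - ε := by
    rw [he']; push_cast; ring
  set f : ℝ := 5 / 6 - ε with hf
  have hf0 : 0 ≤ f := by rw [hf]; linarith
  have hf1 : f ≤ 1 := by rw [hf]; linarith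
  -- the fifth power of the basic bound
  have hpow : ∀ (X M : ℝ), 0 ≤ X → κ * X ^ ((1 - e') / 6) ≤ M → κ ^ 5 * X ^ f ≤ M ^ 5 := by
    intro X M hX h
    have h1 := pow_le_pow_left₀ (by positivity) h 5
    rw [mul_pow, ← Real.rpow_mul_natCast hX, hexp] at h1
    exact h1
  have hm_ne : ∀ x y u m : ℤ, y ^ 2 ≠ x ^ 3 → y ^ 2 - x ^ 3 = u * m ^ 5 → u ≠ 0 ∧ m ≠ 0 := by
    intro x y u m hne h
    have h0 : u * m ^ 5 ≠ 0 := by
      rw [← h]; exact sub_ne_zero.2 hne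
    refine ⟨left_ne_zero_of_mul h0, ?_⟩
    rintro rfl
    apply h0
    norm_num
  refine ⟨κ ^ 5, by positivity, ?_⟩
  intro x y u m hne hTU h hgcd
  constructor
  · -- induction
    have key : ∀ N : ℕ, ∀ x y u m : ℤ, (y ^ 2 - x ^ 3).natAbs = N → y ^ 2 ≠ x ^ 3 → TU T u →
        (∀ p ∈ T, ¬ (p : ℤ) ∣ m) → y ^ 2 - x ^ 3 = u * m ^ 5 →
        (∀ p : ℕ, p.Prime → (p : ℤ) ∣ x → (p : ℤ) ∣ y → p ∈ T) →
        κ ^ 5 * (max (|(x : ℝ)| ^ 3) ((y : ℝ) ^ 2)) ^ f ≤ |((y ^ 2 - x ^ 3 : ℤ) : ℝ)| := by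
      intro N
      induction N using Nat.strong_induction_on with
      | _ N ih =>
        intro x y u m hN hne hTU hmT h hgcd
        obtain ⟨hu0, hm0⟩ := hm_ne x y u m hne h
        by_cases hmin : ∀ p : ℕ, p.Prime → ¬ ((p : ℤ) ^ 2 ∣ x ∧ (p : ℤ) ^ 3 ∣ y)
        · have h1 := hb x y u m hu0 hm0 hTU hmT hgcd hmin h
          have h2 := hpow _ _ (le_trans (by positivity) (le_max_left _ _)) h1
          refine h2.trans ?_
          rw [h]
          push_cast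
          rw [abs_mul, abs_pow]
          have h3 : (1 : ℝ) ≤ |(u : ℝ)| := by exact_mod_cast Int.one_le_abs hu0
          nlinarith [pow_nonneg (abs_nonneg (m : ℝ)) 5]
        · push Not at hmin
          obtain ⟨p, hp, ⟨x1, hx1⟩, ⟨y1, hy1⟩⟩ := hmin
          have hp0 : (p : ℤ) ≠ 0 := by exact_mod_cast hp.ne_zero
          have hpT : p ∈ T := hgcd p hp ⟨p * x1, by rw [hx1]; ring⟩ ⟨p ^ 2 * y1, by rw [hy1]; ring⟩
          have hk : y ^ 2 - x ^ 3 = p ^ 6 * (y1 ^ 2 - x1 ^ 3) := by rw [hx1, hy1]; ring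
          have hk0 : y1 ^ 2 - x1 ^ 3 ≠ 0 := by
            intro h0
            apply hne
            rw [h0, mul_zero] at hk
            linarith
          have hcop : IsCoprime ((p : ℤ) ^ 6) (m ^ 5) := by
            apply IsCoprime.pow
            rw [Nat.prime_iff_prime_int] at hp
            exact (hp.coprime_iff_not_dvd).2 (hmT p hpT)
          obtain ⟨u1, hu1⟩ : (p : ℤ) ^ 6 ∣ u := by
            apply hcop.dvd_of_dvd_mul_right
            rw [← h, hk]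
            exact ⟨_, rfl⟩
          have h1 : y1 ^ 2 - x1 ^ 3 = u1 * m ^ 5 := by
            apply mul_left_cancel₀ (pow_ne_zero 6 hp0)
            rw [← hk, h, hu1]; ring
          have hlt : (y1 ^ 2 - x1 ^ 3).natAbs < N := by
            rw [← hN, hk, Int.natAbs_mul, Int.natAbs_pow, Int.natAbs_natCast]
            have hpos : 0 < (y1 ^ 2 - x1 ^ 3).natAbs := Int.natAbs_pos.2 hk0
            have : 1 < p ^ 6 := Nat.one_lt_pow (by norm_num) hp.one_lt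
            nlinarith
          have h2 := ih _ hlt x1 y1 u1 m rfl (fun h0 => hk0 (sub_eq_zero.2 h0))
            (fun q hq hqd => hTU q hq (by rw [hu1]; exact hqd.mul_left _)) hmT h1
            (fun q hq hqx hqy => hgcd q hq (by rw [hx1]; exact hqx.mul_left _)
              (by rw [hy1]; exact hqy.mul_left _))
          have hp1 : (1 : ℝ) ≤ p := by exact_mod_cast hp.one_lt.le
          have hp6 : (1 : ℝ) ≤ (p : ℝ) ^ 6 := one_le_pow₀ hp1
          have e1 : max (|(x : ℝ)| ^ 3) ((y : ℝ) ^ 2) =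
              (p : ℝ) ^ 6 * max (|(x1 : ℝ)| ^ 3) ((y1 : ℝ) ^ 2) := by
            rw [hx1, hy1]
            push_cast
            rw [abs_mul, abs_of_nonneg (by positivity : (0 : ℝ) ≤ (p : ℝ) ^ 2),
              mul_max_of_nonneg _ _ (by positivity : (0 : ℝ) ≤ (p : ℝ) ^ 6)]
            congr 1 <;> ring
          have hX0 : (0 : ℝ) ≤ max (|(x1 : ℝ)| ^ 3) ((y1 : ℝ) ^ 2) :=
            le_trans (by positivity) (le_max_left _ _)
          rw [e1, Real.mul_rpow (by positivity) hX0, hk]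
          push_cast
          rw [abs_mul, abs_of_nonneg (by positivity : (0 : ℝ) ≤ (p : ℝ) ^ 6)]
          have h5 : ((p : ℝ) ^ 6) ^ f ≤ (p : ℝ) ^ 6 := by
            have := Real.rpow_le_rpow_of_exponent_le hp6 hf1
            rwa [Real.rpow_one] at this
          push_cast at h2
          calc κ ^ 5 * (((p : ℝ) ^ 6) ^ f * (max (|(x1 : ℝ)| ^ 3) ((y1 : ℝ) ^ 2)) ^ f)
              = ((p : ℝ) ^ 6) ^ f * (κ ^ 5 * (max (|(x1 : ℝ)| ^ 3) ((y1 : ℝ) ^ 2)) ^ f) := by ring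
            _ ≤ (p : ℝ) ^ 6 * |(y1 : ℝ) ^ 2 - (x1 : ℝ) ^ 3| :=
                mul_le_mul h5 h2 (by positivity) (by positivity)
    obtain ⟨hu0, hm0⟩ := hm_ne x y u m hne h
    obtain ⟨w, m', e1, hw, hm', hTw, hlast⟩ := split_T T hT m hm0
    exact key _ x y (u * w ^ 5) m' rfl hne (TU_mul hTU (TU_pow hTw 5)) hlast
      (by rw [h, e1]; ring) hgcd
  · intro hxy
    obtain ⟨hu0, hm0⟩ := hm_ne x y u m hne h
    obtain ⟨w, m', e1, hw, hm', hTw, hlast⟩ := split_T T hT m hm0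
    have nocommon : ∀ p : ℕ, p.Prime → (p : ℤ) ∣ x → ¬ (p : ℤ) ∣ y := by
      intro p hp hpx hpy
      obtain ⟨a, b, hab⟩ := hxy
      have : (p : ℤ) ∣ 1 := by
        rw [← hab]
        exact dvd_add (hpx.mul_left _) (hpy.mul_left _)
      have := Int.natCast_dvd_natCast.1 (by exact_mod_cast this : (p : ℤ) ∣ ((1 : ℕ) : ℤ))
      exact absurd (Nat.dvd_one.1 this) hp.one_lt.ne'
    have h1 := hb x y (u * w ^ 5) m' (mul_ne_zero hu0 (pow_ne_zero _ hw)) hm'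
      (TU_mul hTU (TU_pow hTw 5)) hlast
      (fun p hp hpx hpy => absurd hpy (nocommon p hp hpx))
      (fun p hp h2 => nocommon p hp ((dvd_pow_self _ (by norm_num)).trans h2.1)
        ((dvd_pow_self _ (by norm_num)).trans h2.2))
      (by rw [h, e1]; ring)
    have h2 : |(m' : ℝ)| ≤ |(m : ℝ)| := by
      rw [e1]
      push_cast
      rw [abs_mul]
      have h3 : (1 : ℝ) ≤ |(w : ℝ)| := by exact_mod_cast Int.one_le_abs hw
      nlinarith [abs_nonneg (m' : ℝ)]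
    exact hpow _ _ (le_trans (by positivity) (le_max_left _ _)) (h1.trans h2)

/-- consecutive Fibonacci numbers -/
theorem fibs (n : ℕ) : ∃ u v : ℤ, 1 ≤ u ∧ u ≤ v ∧ (n : ℤ) ≤ v ∧
    (u ^ 2 + u * v - v ^ 2 = 1 ∨ u ^ 2 + u * v - v ^ 2 = -1) := by
  induction n with
  | zero => exact ⟨1, 1, by norm_num, le_rfl, by norm_num, by norm_num⟩
  | succ n ih =>
    obtain ⟨u, v, h1, h2, h3, h4⟩ := ih
    refine ⟨v, u + v, by linarith, by linarith, by push_cast; linarith, ?_⟩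
    have e : v ^ 2 + v * (u + v) - (u + v) ^ 2 = -(u ^ 2 + u * v - v ^ 2) := by ring
    rw [e]
    rcases h4 with h4 | h4
    · right; rw [h4]
    · left; rw [h4]; norm_num

/-- the common prime factors of the covariants of the form of the icosahedron -/
theorem common (u v : ℤ) (huv : IsCoprime u v) (p : ℕ) (hp : p.Prime) (h1 : (p : ℤ) ∣ HH u v)
    (h2 : (p : ℤ) ∣ TT u v) : p ∈ ({2, 3, 5} : Finset ℕ) := by
  have hpi := Nat.prime_iff_prime_int.1 hp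
  have hnot : ¬ ((p : ℤ) ∣ u ∧ (p : ℤ) ∣ v) := by
    rintro ⟨k1, k2⟩
    obtain ⟨a, b, hab⟩ := huv
    have : (p : ℤ) ∣ 1 := by
      rw [← hab]; exact dvd_add (k1.mul_left _) (k2.mul_left _)
    exact hpi.not_dvd_one this
  have hu : ¬ (p : ℤ) ∣ u := by
    intro hu
    apply hnot
    refine ⟨hu, ?_⟩
    have e : v ^ 20 = -HH u v + u * (-u ^ 19 + 228 * (u ^ 14 * v ^ 5 - u ^ 4 * v ^ 15) -
        494 * (u ^ 9 * v ^ 10)) := by unfold HH; ring
    have : (p : ℤ) ∣ v ^ 20 := by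
      rw [e]; exact dvd_add h1.neg_right (hu.mul_right _)
    exact hpi.dvd_of_dvd_pow this
  have hv : ¬ (p : ℤ) ∣ v := by
    intro hv
    apply hnot
    refine ⟨?_, hv⟩
    have e : u ^ 20 = -HH u v + v * (-v ^ 19 + 228 * (u ^ 15 * v ^ 4 - u ^ 5 * v ^ 14) -
        494 * (u ^ 10 * v ^ 9)) := by unfold HH; ring
    have : (p : ℤ) ∣ u ^ 20 := by
      rw [e]; exact dvd_add h1.neg_right (hv.mul_right _)
    exact hpi.dvd_of_dvd_pow this
  have hs := Pool.Agent.H13.IC.syz u v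
  have h3 : (p : ℤ) ∣ 1728 * ff u v ^ 5 := by
    rw [← hs]
    exact dvd_add (h2.trans (dvd_pow_self _ (by norm_num))) (h1.trans (dvd_pow_self _ (by norm_num)))
  rcases hpi.dvd_or_dvd h3 with h4 | h4
  · have e : (1728 : ℤ) = 2 ^ 6 * 3 ^ 3 := by norm_num
    rw [e] at h4
    rcases hpi.dvd_or_dvd h4 with h5 | h5
    · have h6 : p ∣ 2 := by exact_mod_cast hpi.dvd_of_dvd_pow h5
      have : p = 2 := (Nat.prime_dvd_prime_iff_eq hp Nat.prime_two).1 h6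
      rw [this]; decide
    · have h6 : p ∣ 3 := by exact_mod_cast hpi.dvd_of_dvd_pow h5
      have : p = 3 := (Nat.prime_dvd_prime_iff_eq hp Nat.prime_three).1 h6
      rw [this]; decide
  · have h5 : (p : ℤ) ∣ ff u v := hpi.dvd_of_dvd_pow h4
    have e1 : ff u v = u * v * (u ^ 10 + 11 * u ^ 5 * v ^ 5 - v ^ 10) := by unfold ff; ring
    rw [e1] at h5
    rcases hpi.dvd_or_dvd h5 with h6 | h6
    · rcases hpi.dvd_or_dvd h6 with h7 | h7
      · exact absurd h7 hu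
      · exact absurd h7 hv
    · have e2 : 3125 * (u * v) ^ 10 = -HH u v + (u ^ 10 + 11 * u ^ 5 * v ^ 5 - v ^ 10) *
          (-(u ^ 10) + 239 * u ^ 5 * v ^ 5 + v ^ 10) := by unfold HH; ring
      have h7 : (p : ℤ) ∣ 3125 * (u * v) ^ 10 := by
        rw [e2]; exact dvd_add h1.neg_right (h6.mul_right _)
      rcases hpi.dvd_or_dvd h7 with h8 | h8
      · have e : (3125 : ℤ) = 5 ^ 5 := by norm_num
        rw [e] at h8
        have h9 : p ∣ 5 := by exact_mod_cast hpi.dvd_of_dvd_pow h8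
        have : p = 5 := (Nat.prime_dvd_prime_iff_eq hp Nat.prime_five).1 h9
        rw [this]; decide
      · rcases hpi.dvd_or_dvd (hpi.dvd_of_dvd_pow h8) with h9 | h9
        · exact absurd h9 hu
        · exact absurd h9 hv

theorem HH_neg_le {u v : ℤ} (h0 : 1 ≤ u) (h1 : u ≤ v) : v ^ 20 ≤ -HH u v := by
  have h2 : u ^ 15 * v ^ 5 ≤ u ^ 5 * v ^ 15 := by
    have e : u ^ 5 * v ^ 15 - u ^ 15 * v ^ 5 = u ^ 5 * v ^ 5 * (v ^ 10 - u ^ 10) := by ring
    have h3 : u ^ 10 ≤ v ^ 10 := pow_le_pow_left₀ (by linarith) h1 10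
    have h4 : 0 ≤ u ^ 5 * v ^ 5 * (v ^ 10 - u ^ 10) :=
      mul_nonneg (mul_nonneg (pow_nonneg (by linarith) _) (pow_nonneg (by linarith) _))
        (by linarith)
    linarith
  have h5 : 0 ≤ u ^ 10 * v ^ 10 :=
    mul_nonneg (pow_nonneg (by linarith) _) (pow_nonneg (by linarith) _)
  have h6 : 0 ≤ u ^ 20 := pow_nonneg (by linarith) _
  unfold HH
  linarith

theorem mono_bound {u v : ℤ} (h0 : 0 ≤ u) (h1 : u ≤ v) (i j n : ℕ) (h : i + j = n) :
    0 ≤ u ^ i * v ^ j ∧ u ^ i * v ^ j ≤ v ^ n := by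
  have h3 : u ^ i ≤ v ^ i := pow_le_pow_left₀ h0 h1 i
  have h4 : 0 ≤ v ^ j := pow_nonneg (h0.trans h1) _
  refine ⟨mul_nonneg (pow_nonneg h0 _) h4, ?_⟩
  rw [← h, pow_add]
  exact mul_le_mul_of_nonneg_right h3 h4

theorem ff_abs_le {u v : ℤ} (h0 : 1 ≤ u) (h1 : u ≤ v)
    (h : u ^ 2 + u * v - v ^ 2 = 1 ∨ u ^ 2 + u * v - v ^ 2 = -1) : |ff u v| ≤ 19 * v ^ 10 := by
  set A : ℤ := u ^ 8 - u ^ 7 * v + 2 * (u ^ 6 * v ^ 2) - 3 * (u ^ 5 * v ^ 3) +
    5 * (u ^ 4 * v ^ 4) + 3 * (u ^ 3 * v ^ 5) + 2 * (u ^ 2 * v ^ 6) + u * v ^ 7 + v ^ 8 with hA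
  have e : ff u v = (u * v) * ((u ^ 2 + u * v - v ^ 2) * A) := by
    rw [hA]; unfold ff; ring
  have hu : 0 ≤ u := by linarith
  have hv : 0 ≤ v := by linarith
  have b8 := mono_bound hu h1 8 0 8 (by norm_num)
  have b7 := mono_bound hu h1 7 1 8 (by norm_num)
  have b6 := mono_bound hu h1 6 2 8 (by norm_num)
  have b5 := mono_bound hu h1 5 3 8 (by norm_num)
  have b4 := mono_bound hu h1 4 4 8 (by norm_num)
  have b3 := mono_bound hu h1 3 5 8 (by norm_num)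
  have b2 := mono_bound hu h1 2 6 8 (by norm_num)
  have b1 := mono_bound hu h1 1 7 8 (by norm_num)
  have b0 : 0 ≤ v ^ 8 := pow_nonneg hv _
  simp only [pow_zero, mul_one, pow_one] at b8 b7 b6 b5 b4 b3 b2 b1
  have hAb : |A| ≤ 19 * v ^ 8 := by
    rw [abs_le]
    constructor <;> · rw [hA]; linarith [b8.1, b8.2, b7.1, b7.2, b6.1, b6.2, b5.1, b5.2, b4.1,
        b4.2, b3.1, b3.2, b2.1, b2.2, b1.1, b1.2]
  have h2 : |u ^ 2 + u * v - v ^ 2| = 1 := by
    rcases h with h | h <;> rw [h] <;> norm_num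
  rw [e, abs_mul, abs_mul (u ^ 2 + u * v - v ^ 2) A, h2, one_mul,
    abs_of_nonneg (mul_nonneg hu hv)]
  have h3 : u * v ≤ v * v := mul_le_mul_of_nonneg_right h1 hv
  calc u * v * |A| ≤ v * v * (19 * v ^ 8) := mul_le_mul h3 hAb (abs_nonneg _) (mul_nonneg hv hv)
    _ = 19 * v ^ 10 := by ring

theorem coprime_fib {u v : ℤ}
    (h : u ^ 2 + u * v - v ^ 2 = 1 ∨ u ^ 2 + u * v - v ^ 2 = -1) : IsCoprime u v := by
  rcases h with h | h
  · exact ⟨u + v, -v, by linarith⟩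
  · exact ⟨-u - v, v, by linarith⟩

theorem ff_ne {u v : ℤ} (h0 : 1 ≤ u) (h1 : u ≤ v)
    (h : u ^ 2 + u * v - v ^ 2 = 1 ∨ u ^ 2 + u * v - v ^ 2 = -1) : ff u v ≠ 0 := by
  have e : ff u v = (u * v) * ((u ^ 2 + u * v - v ^ 2) *
    (u ^ 8 - u ^ 7 * v + 2 * (u ^ 6 * v ^ 2) - 3 * (u ^ 5 * v ^ 3) +
    5 * (u ^ 4 * v ^ 4) + 3 * (u ^ 3 * v ^ 5) + 2 * (u ^ 2 * v ^ 6) + u * v ^ 7 + v ^ 8)) := by
    unfold ff; ring
  have hu : 0 ≤ u := by linarith
  have hv : 0 ≤ v := by linarith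
  have hA : 0 < u ^ 8 - u ^ 7 * v + 2 * (u ^ 6 * v ^ 2) - 3 * (u ^ 5 * v ^ 3) +
      5 * (u ^ 4 * v ^ 4) + 3 * (u ^ 3 * v ^ 5) + 2 * (u ^ 2 * v ^ 6) + u * v ^ 7 + v ^ 8 := by
    have a1 := mono_bound hu h1 7 1 8 (by norm_num)
    have a2 : u ^ 5 * v ^ 3 ≤ u ^ 4 * v ^ 4 := by
      have e : u ^ 4 * v ^ 4 - u ^ 5 * v ^ 3 = u ^ 4 * v ^ 3 * (v - u) := by ring
      have : 0 ≤ u ^ 4 * v ^ 3 * (v - u) :=
        mul_nonneg (mul_nonneg (pow_nonneg hu _) (pow_nonneg hv _)) (by linarith)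
      linarith
    have a3 : 0 < u ^ 8 := pow_pos (by linarith) _
    have a4 : 0 ≤ u ^ 6 * v ^ 2 := mul_nonneg (pow_nonneg hu _) (pow_nonneg hv _)
    have a5 : 0 ≤ u ^ 4 * v ^ 4 := mul_nonneg (pow_nonneg hu _) (pow_nonneg hv _)
    have a6 : 0 ≤ u ^ 3 * v ^ 5 := mul_nonneg (pow_nonneg hu _) (pow_nonneg hv _)
    have a7 : 0 ≤ u ^ 2 * v ^ 6 := mul_nonneg (pow_nonneg hu _) (pow_nonneg hv _)
    have a8 : 0 ≤ u * v ^ 7 := mul_nonneg hu (pow_nonneg hv _)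
    simp only [pow_one] at a1
    linarith [a1.2]
  have h2 : u ^ 2 + u * v - v ^ 2 ≠ 0 := by
    rcases h with h | h <;> rw [h] <;> norm_num
  rw [e]
  exact mul_ne_zero (mul_ne_zero (by linarith) (by linarith)) (mul_ne_zero h2 hA.ne')

/-- **Hall's conjecture for products of a fifth power and given primes.**

(1) Let `T` be a finite set of primes and let `ε > 0`.  There is `c > 0` such that every pair of
integers `x`, `y` with `y² ≠ x³` whose common prime factors all lie in `T` and for which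
`y² - x³ = u m⁵` with all prime factors of `u` in `T` satisfies
`|y² - x³| > c max(|x|³, y²)^(5/6 - ε)` and `|y² - x³| > c |x|^(5/2 - 3 ε)`.
If `x` and `y` are coprime then even `|m|⁵ > c max(|x|³, y²)^(5/6 - ε)`.

(2) The exponent `5/2` is the best possible: there are `C` and pairs `x`, `y` with `|x|` arbitrarily
large, with common prime factors in `{2, 3, 5}` and with `y² - x³ = 1728 m⁵ ≠ 0`, such that
`|y² - x³| ≤ C |x|^(5/2)`. -/
theorem result :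
    (∀ T : Finset ℕ, (∀ p ∈ T, p.Prime) → ∀ ε : ℝ, 0 < ε →
      ∃ c : ℝ, 0 < c ∧ ∀ x y u m : ℤ, y ^ 2 ≠ x ^ 3 →
        (∀ p : ℕ, p.Prime → (p : ℤ) ∣ x → (p : ℤ) ∣ y → p ∈ T) →
        (∀ p : ℕ, p.Prime → (p : ℤ) ∣ u → p ∈ T) →
        y ^ 2 - x ^ 3 = u * m ^ 5 →
        c * (max (|(x : ℝ)| ^ 3) ((y : ℝ) ^ 2)) ^ ((5 : ℝ) / 6 - ε) <
          |(y : ℝ) ^ 2 - (x : ℝ) ^ 3| ∧
        c * |(x : ℝ)| ^ ((5 : ℝ) / 2 - 3 * ε) < |(y : ℝ) ^ 2 - (x : ℝ) ^ 3| ∧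
        (IsCoprime x y →
          c * (max (|(x : ℝ)| ^ 3) ((y : ℝ) ^ 2)) ^ ((5 : ℝ) / 6 - ε) < |(m : ℝ)| ^ 5)) ∧
    ∃ C : ℝ, ∀ N : ℝ, ∃ x y m : ℤ, N < |(x : ℝ)| ∧ y ^ 2 ≠ x ^ 3 ∧
      (∀ p : ℕ, p.Prime → (p : ℤ) ∣ x → (p : ℤ) ∣ y → p ∈ ({2, 3, 5} : Finset ℕ)) ∧
      y ^ 2 - x ^ 3 = 1728 * m ^ 5 ∧
      |(y : ℝ) ^ 2 - (x : ℝ) ^ 3| ≤ C * |(x : ℝ)| ^ ((5 : ℝ) / 2) := by
  constructor
  · intro T hT ε hε
    set ε0 := min ε ((5 : ℝ) / 6) with hε0
    have hε00 : 0 < ε0 := lt_min hε (by positivity)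
    obtain ⟨c, hc, hb⟩ := aux T hT ε0 hε00 (min_le_right _ _)
    refine ⟨c / 2, by positivity, ?_⟩
    intro x y u m hne hgcd hTU h
    obtain ⟨h1, h2⟩ := hb x y u m hne hTU h hgcd
    have hX1 := max_pos_of_ne hne
    set X := max (|(x : ℝ)| ^ 3) ((y : ℝ) ^ 2) with hX
    have hX0 : 0 < X := by linarith
    have hle : X ^ ((5 : ℝ) / 6 - ε) ≤ X ^ ((5 : ℝ) / 6 - ε0) :=
      Real.rpow_le_rpow_of_exponent_le hX1 (by linarith [min_le_left ε ((5 : ℝ) / 6)])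
    have hpos : 0 < X ^ ((5 : ℝ) / 6 - ε) := Real.rpow_pos_of_pos hX0 _
    have hstr : c / 2 * X ^ ((5 : ℝ) / 6 - ε) < c * X ^ ((5 : ℝ) / 6 - ε0) := by nlinarith
    push_cast at h1
    refine ⟨lt_of_lt_of_le hstr h1, ?_, fun hxy => lt_of_lt_of_le hstr (h2 hxy)⟩
    have habs : 0 < |(y : ℝ) ^ 2 - (x : ℝ) ^ 3| := by
      rw [abs_pos, sub_ne_zero]
      intro h0
      exact hne (by exact_mod_cast h0)
    by_cases hx : x = 0
    · -- x = 0
      have hy : y ≠ 0 := by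
        rintro rfl
        apply hne
        rw [hx]; ring
      by_cases he : (5 : ℝ) / 2 - 3 * ε = 0
      · rw [he, Real.rpow_zero, mul_one]
        have h3 : c / 2 < c * X ^ ((5 : ℝ) / 6 - ε0) := by
          have he' : 0 ≤ (5 : ℝ) / 6 - ε0 := by linarith [min_le_right ε ((5 : ℝ) / 6)]
          have := Real.one_le_rpow hX1 he'
          nlinarith
        exact lt_of_lt_of_le h3 h1
      · rw [hx]
        push_cast
        rw [abs_zero, Real.zero_rpow he, mul_zero]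
        rw [hx] at habs
        push_cast at habs
        exact habs
    · have hx1 : (1 : ℝ) ≤ |(x : ℝ)| := by exact_mod_cast Int.one_le_abs hx
      have hx0 : (0 : ℝ) < |(x : ℝ)| := by linarith
      have e1 : |(x : ℝ)| ^ ((5 : ℝ) / 2 - 3 * ε) = (|(x : ℝ)| ^ 3) ^ ((5 : ℝ) / 6 - ε) := by
        rw [← Real.rpow_natCast, ← Real.rpow_mul hx0.le]
        congr 1
        push_cast
        ring
      rw [e1]
      have hx31 : 1 ≤ |(x : ℝ)| ^ 3 := one_le_pow₀ hx1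
      have h3 : (|(x : ℝ)| ^ 3) ^ ((5 : ℝ) / 6 - ε) ≤ (|(x : ℝ)| ^ 3) ^ ((5 : ℝ) / 6 - ε0) :=
        Real.rpow_le_rpow_of_exponent_le hx31 (by linarith [min_le_left ε ((5 : ℝ) / 6)])
      have h4 : (|(x : ℝ)| ^ 3) ^ ((5 : ℝ) / 6 - ε0) ≤ X ^ ((5 : ℝ) / 6 - ε0) :=
        Real.rpow_le_rpow (by positivity) (le_max_left _ _)
          (by linarith [min_le_right ε ((5 : ℝ) / 6)])
      have h5 : 0 < (|(x : ℝ)| ^ 3) ^ ((5 : ℝ) / 6 - ε) := Real.rpow_pos_of_pos (by linarith) _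
      refine lt_of_lt_of_le ?_ h1
      nlinarith
  · refine ⟨1728 * 19 ^ 5, ?_⟩
    intro N
    obtain ⟨n, hn⟩ := exists_nat_gt N
    obtain ⟨u, v, hu, huv, hnv, hF⟩ := fibs n
    have hv : 1 ≤ v := hu.trans huv
    have hx := HH_neg_le hu huv
    have hm := ff_abs_le hu huv hF
    have hm0 := ff_ne hu huv hF
    have hs := Pool.Agent.H13.IC.syz u v
    have hk : (TT u v) ^ 2 - (-HH u v) ^ 3 = 1728 * ff u v ^ 5 := by
      rw [← hs]; ring
    have hvR : (1 : ℝ) ≤ v := by exact_mod_cast hv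
    have hxR : (v : ℝ) ^ 20 ≤ |((-HH u v : ℤ) : ℝ)| := by
      have : ((v ^ 20 : ℤ) : ℝ) ≤ ((-HH u v : ℤ) : ℝ) := by exact_mod_cast hx
      rw [Int.cast_pow] at this
      exact this.trans (le_abs_self _)
    refine ⟨-HH u v, TT u v, ff u v, ?_, ?_, ?_, hk, ?_⟩
    · have h1 : (n : ℝ) ≤ v := by exact_mod_cast hnv
      have h2 : (v : ℝ) ≤ (v : ℝ) ^ 20 := le_self_pow₀ hvR (by norm_num)
      linarith
    · intro h0
      have : 1728 * ff u v ^ 5 = 0 := by rw [← hk, h0, sub_self]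
      have h1 : (ff u v) ^ 5 = 0 := by linarith
      exact hm0 (by simpa using h1)
    · intro p hp h1 h2
      exact common u v (coprime_fib hF) p hp (by simpa using h1) h2
    · have h1 : ((TT u v : ℤ) : ℝ) ^ 2 - ((-HH u v : ℤ) : ℝ) ^ 3 = 1728 * ((ff u v : ℤ) : ℝ) ^ 5 := by
        exact_mod_cast hk
      rw [h1, abs_mul, abs_pow, abs_of_pos (by norm_num : (0 : ℝ) < 1728)]
      have h2 : |((ff u v : ℤ) : ℝ)| ≤ 19 * (v : ℝ) ^ 10 := by exact_mod_cast hm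
      have h3 : |((ff u v : ℤ) : ℝ)| ^ 5 ≤ (19 * (v : ℝ) ^ 10) ^ 5 :=
        pow_le_pow_left₀ (abs_nonneg _) h2 5
      have h4 : ((v : ℝ) ^ 20) ^ ((5 : ℝ) / 2) ≤ |((-HH u v : ℤ) : ℝ)| ^ ((5 : ℝ) / 2) :=
        Real.rpow_le_rpow (by positivity) hxR (by norm_num)
      have h5 : ((v : ℝ) ^ 20) ^ ((5 : ℝ) / 2) = (v : ℝ) ^ 50 := by
        rw [← Real.rpow_natCast, ← Real.rpow_mul (by linarith), ← Real.rpow_natCast]
        norm_num
      rw [h5] at h4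
      have h6 : (19 * (v : ℝ) ^ 10) ^ 5 = 19 ^ 5 * (v : ℝ) ^ 50 := by ring
      rw [h6] at h3
      calc 1728 * |((ff u v : ℤ) : ℝ)| ^ 5 ≤ 1728 * (19 ^ 5 * (v : ℝ) ^ 50) :=
            mul_le_mul_of_nonneg_left h3 (by norm_num)
        _ = 1728 * 19 ^ 5 * (v : ℝ) ^ 50 := by ring
        _ ≤ 1728 * 19 ^ 5 * |((-HH u v : ℤ) : ℝ)| ^ ((5 : ℝ) / 2) :=
            mul_le_mul_of_nonneg_left h4 (by norm_num)

end Pool.Agent.Results.MP_e734ed_nt.FifthPowers
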